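import Pool.Agent.Q270.MlsSalem

/-!
# The spectrum of a non-hyperbolic polynomial is never closed

`P` is a monic irreducible integer polynomial with a root of modulus larger than one and a root
of modulus one.  Then for every order `k` the multiplicative Lagrange spectrum is countable near
zero, hence different from `[0, 1/2]`, and it is not closed.
-/

set_option autoImplicit false

namespace Pool.Agent.Results.MP_6c75e4_nt.NonHyperbolicNotClosed

open Polynomial Filter

/-- the expanding roots of `P`: its complex roots of modulus larger than one -/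
noncomputable def expandingRoots (P : ℤ[X]) : Finset ℂ :=
  ((P.map (Int.castRingHom ℂ)).roots.toFinset).filter (fun z => 1 < ‖z‖)

/-- `Ξ_k`: the families of complex polynomials of degree at most `k`, indexed by the expanding
roots and compatible with complex conjugation -/
def Tuples (P : ℤ[X]) (k : ℕ) : Set (ℂ → ℂ[X]) :=
  {g | ∀ z ∈ expandingRoots P, (g z).natDegree ≤ k ∧
    g (starRingEnd ℂ z) = (g z).map (starRingEnd ℂ)}

/-- the (real) number `x_n(g)`, the sum of `g_z(n) z ^ n` over the expanding roots `z` -/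
noncomputable def x (P : ℤ[X]) (g : ℂ → ℂ[X]) (n : ℕ) : ℝ :=
  (∑ z ∈ expandingRoots P, (g z).eval (n : ℂ) * z ^ n).re

/-- the multiplicative Lagrange spectrum of order `k` -/
def spectrum (P : ℤ[X]) (k : ℕ) : Set ℝ :=
  {v | ∃ g ∈ Tuples P k, limsup (fun n => |x P g n - round (x P g n)|) atTop = v}

/-- **Main theorem.** -/
theorem result (P : ℤ[X]) (hP : P.Monic) (hirr : Irreducible P)
    (hexp : ∃ z : ℂ, (P.map (Int.castRingHom ℂ)).eval z = 0 ∧ 1 < ‖z‖)
    (hunit : ∃ z : ℂ, (P.map (Int.castRingHom ℂ)).eval z = 0 ∧ ‖z‖ = 1) (k : ℕ) :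
    (∃ ε : ℝ, 0 < ε ∧ (spectrum P k ∩ Set.Iio ε).Countable) ∧
    ¬ IsClosed (spectrum P k) ∧ spectrum P k ≠ Set.Icc 0 (1 / 2) := by
  have h := Pool.Agent.Q270.Mls.main hP hirr hexp hunit k
  exact ⟨h.1, h.2.2.1, h.2.2.2⟩

end Pool.Agent.Results.MP_6c75e4_nt.NonHyperbolicNotClosed
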